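import Pool.Agent.H39.EAG.Targets

/-! row DET of MP_a10695_co (board eag): the deterministic part -/

set_option autoImplicit false

namespace Pool.Agent.H38.EAG

open Finset Filter Topology Pool.Agent.H39.EAG

lemma det_core (hA : T_CHA) (hB : T_CHB) (hO : T_OPT) (hM : T_MRG) (n L : ℕ)
    (G : SimpleGraph (Fin n)) (h1 : 2 * L + 1 ≤ chi G univ)
    (h2 : ∃ x, chi G univ ≤ 2 * chi G (nbr G x) + 1)
    (h3 : ∀ x m, L ≤ chi G (Rx G x m) → ¬ Bad G x m) (a b : ℕ) (ha : 2 ≤ a) (hab : a ≤ b)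
    (ht : chi G univ = a + b - 1) :
    ∃ S T : Finset (Fin n), Disjoint S T ∧ chi G S = a ∧ chi G T = b := by
  classical
  obtain ⟨-, A2, A3, A4, -⟩ := hA (Fin n) G
  obtain ⟨B1, B2, B3, -⟩ := hB (Fin n) G
  obtain ⟨x, hx⟩ := h2
  have hax : a - 1 ≤ chi G (nbr G x) := by omega
  have hn : 0 < n := Nat.lt_of_le_of_lt (Nat.zero_le _) x.2
  have hne : ({m | a - 1 ≤ chi G (nb G x m)} : Set (Fin n)).Nonempty := by
    refine ⟨⟨n - 1, by omega⟩, ?_⟩
    show a - 1 ≤ chi G (nb G x ⟨n - 1, by omega⟩)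
    refine hax.trans (A3 _ _ ?_)
    intro v hv
    unfold nbr at hv
    unfold nb
    rw [mem_filter] at hv ⊢
    refine ⟨hv.1, hv.2, ?_⟩
    rw [Fin.le_def]
    have := v.2
    show v.val ≤ n - 1
    omega
  obtain ⟨m, hm, hmin⟩ := (wellFounded_lt (α := Fin n)).has_min _ hne
  have hm' : a - 1 ≤ chi G (nb G x m) := hm
  have hS0 : chi G ((nb G x m).erase m) < a - 1 := by
    by_cases h0 : m.val = 0
    · have : (nb G x m).erase m = ∅ := by
        rw [eq_empty_iff_forall_notMem]
        intro v hv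
        rw [mem_erase] at hv
        unfold nb at hv
        rw [mem_filter] at hv
        have h5 := hv.2.2.2
        rw [Fin.le_def] at h5
        apply hv.1
        ext
        omega
      rw [this, A2]
      omega
    · have hlt : (⟨m.val - 1, by omega⟩ : Fin n) < m := by
        rw [Fin.lt_def]
        show m.val - 1 < m.val
        omega
      have h5 : ¬ (a - 1 ≤ chi G (nb G x ⟨m.val - 1, by omega⟩)) := fun h => hmin _ h hlt
      refine lt_of_le_of_lt (A3 _ (nb G x ⟨m.val - 1, by omega⟩) ?_) (not_le.1 h5)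
      intro v hv
      rw [mem_erase] at hv
      unfold nb at hv ⊢
      rw [mem_filter] at hv ⊢
      refine ⟨hv.2.1, hv.2.2.1, ?_⟩
      have h6 := hv.2.2.2
      rw [Fin.le_def] at h6 ⊢
      have h7 : v.val ≠ m.val := fun h => hv.1 (Fin.ext h)
      show v.val ≤ m.val - 1
      omega
  have hmem : m ∈ nb G x m := by
    by_contra h
    rw [erase_eq_of_notMem h] at hS0
    omega
  have hadj : G.Adj x m := by
    unfold nb at hmem
    rw [mem_filter] at hmem
    exact hmem.2.1
  have hins : chi G (nb G x m) ≤ chi G ((nb G x m).erase m) + 1 := by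
    have := B1 ((nb G x m).erase m) m
    rwa [insert_erase hmem] at this
  have hxn : x ∉ nb G x m := by
    intro h
    unfold nb at h
    rw [mem_filter] at h
    exact G.loopless.irrefl _ h.2.1
  have hSchi : chi G (insert x (nb G x m)) = chi G (nb G x m) + 1 := by
    refine B3 _ x hxn fun y hy => ?_
    unfold nb at hy
    rw [mem_filter] at hy
    exact hy.2.1
  have hun : chi G univ ≤ chi G (insert x (nb G x m)) + chi G (Rx G x m) := by
    have := A4 (insert x (nb G x m)) (Rx G x m)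
    have e : insert x (nb G x m) ∪ Rx G x m = univ := by
      unfold Rx
      exact union_sdiff_of_subset (subset_univ _)
    rwa [e] at this
  have hLk : L ≤ chi G (Rx G x m) := by omega
  have hbad := h3 x m hLk
  have hex : ∃ i < chi G (Rx G x m), ∀ v ∈ Rx G x m, opt G (Rx G x m) v = i →
      ¬ (G.Adj x v ∧ G.Adj m v) := by
    by_contra hcon
    push Not at hcon
    apply hbad
    refine ⟨hadj, fun i hi => ?_⟩
    obtain ⟨v, hv, e1, e2, e3⟩ := hcon i hi
    exact ⟨v, hv, e1, e2, e3⟩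
  obtain ⟨i, hi, hiv⟩ := hex
  obtain ⟨-, O2, O3, -, -⟩ := hO (Fin n) G (Rx G x m)
  have hmerge := hM (Fin n) G x m (nb G x m) (Rx G x m) hxn hmem rfl (opt G (Rx G x m))
    (chi G (Rx G x m)) i hi O2 O3 hiv
  have hbk : b ≤ chi G (Rx G x m) := by omega
  obtain ⟨T, hT, hTb⟩ := B2 (Rx G x m) b hbk
  refine ⟨insert x (nb G x m), T, ?_, ?_, hTb⟩
  · refine Disjoint.mono_right hT ?_
    unfold Rx
    exact disjoint_sdiff
  · omega

theorem pf_DET (hA : T_CHA) (hB : T_CHB) (hC : T_CHC) (hO : T_OPT) (hM : T_MRG) : T_DET := by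
  classical
  intro n L G h1 h2 h3 a b ha hb hchr
  obtain ⟨C1, C2⟩ := hC (Fin n) G
  rw [C2] at hchr
  have ht : chi G univ = a + b - 1 := by exact_mod_cast hchr
  rcases le_total a b with hab | hab
  · obtain ⟨S, T, hd, hS, hT⟩ := det_core hA hB hO hM n L G h1 h2 h3 a b ha hab ht
    exact ⟨S, T, disjoint_coe.2 hd, by rw [C1, hS], by rw [C1, hT]⟩
  · obtain ⟨S, T, hd, hS, hT⟩ := det_core hA hB hO hM n L G h1 h2 h3 b a hb hab (by omega)
    exact ⟨T, S, disjoint_coe.2 hd.symm, by rw [C1, hT], by rw [C1, hS]⟩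

end Pool.Agent.H38.EAG
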