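import Pool.Agent.H39.EAG.Targets

/-! row LMB of MP_a10695_co (board eag): the bad event is improbable -/

set_option autoImplicit false

namespace Pool.Agent.H38.EAG

open Finset Filter Topology Pool.Agent.H39.EAG

/-- the vertices after `m`, different from `x` -/
def WW {n : ℕ} (x m : Fin n) : Finset (Fin n) := univ.filter fun v => m < v ∧ v ≠ x

/-- the free pairs -/
def FF {n : ℕ} (x m : Fin n) : Finset (Sym2 (Fin n)) :=
  (WW x m).image (fun v => s(x, v)) ∪ (WW x m).image (fun v => s(m, v))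

lemma mem_WW {n : ℕ} {x m v : Fin n} : v ∈ WW x m ↔ m < v ∧ v ≠ x := by
  unfold WW
  rw [mem_filter]
  simp

lemma card_FF {n : ℕ} {x m : Fin n} (hxm : x ≠ m) : (FF x m).card = 2 * (WW x m).card := by
  unfold FF
  rw [card_union_of_disjoint, card_image_of_injective, card_image_of_injective, two_mul]
  · intro v w h
    exact Sym2.congr_right.1 h
  · intro v w h
    exact Sym2.congr_right.1 h
  · rw [disjoint_left]
    intro e he he'
    rw [mem_image] at he he'
    obtain ⟨v, hv, rfl⟩ := he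
    obtain ⟨w, hw, h⟩ := he'
    rw [mem_WW] at hv hw
    rcases Sym2.eq_iff.1 h with h | h
    · exact hxm h.1.symm
    · rw [← h.1] at hv
      exact absurd hv.1 (lt_irrefl _)

lemma not_mem_FF_low {n : ℕ} {x m v : Fin n} (hxm : x ≠ m) (hv : v ≤ m) : s(x, v) ∉ FF x m := by
  unfold FF
  rw [mem_union, mem_image, mem_image]
  rintro (⟨w, hw, h⟩ | ⟨w, hw, h⟩)
  · have := Sym2.congr_right.1 h
    subst this
    rw [mem_WW] at hw
    exact absurd hw.1 (not_lt.2 hv)
  · rw [mem_WW] at hw
    rcases Sym2.eq_iff.1 h with h | h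
    · exact hxm h.1.symm
    · exact hw.2 h.2

lemma not_mem_FF_rest {n : ℕ} {x m u v : Fin n} (h1 : u ≠ x) (h2 : u ≠ m) (h3 : v ≠ x)
    (h4 : v ≠ m) : s(u, v) ∉ FF x m := by
  unfold FF
  rw [mem_union, mem_image, mem_image]
  rintro (⟨w, hw, h⟩ | ⟨w, hw, h⟩)
  · rcases Sym2.eq_iff.1 h with h | h
    · exact h1 h.1.symm
    · exact h3 h.1.symm
  · rcases Sym2.eq_iff.1 h with h | h
    · exact h2 h.1.symm
    · exact h4 h.1.symm

lemma mem_FF_x {n : ℕ} {x m v : Fin n} (hv : v ∈ WW x m) : s(x, v) ∈ FF x m := by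
  unfold FF
  exact mem_union_left _ (mem_image_of_mem _ hv)

lemma adj_iff {n : ℕ} {x m : Fin n} {ω f f0 : Om n} (h : ∀ i, i ∉ FF x m → f i = ω i)
    (h0 : ∀ i, i ∉ FF x m → f0 i = ω i) {u v : Fin n} (huv : s(u, v) ∉ FF x m) :
    (gr f0).Adj u v ↔ (gr f).Adj u v := by
  show (u ≠ v ∧ f0 s(u, v) = true) ↔ (u ≠ v ∧ f s(u, v) = true)
  rw [h _ huv, h0 _ huv]

lemma cnt_zero {Ω : Type} [Fintype Ω] (P : Ω → Prop) (h : ∀ a, ¬ P a) : cnt P = 0 := by
  classical
  unfold cnt
  rw [Nat.cast_eq_zero, card_eq_zero, filter_eq_empty_iff]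
  intro a _
  exact h a

lemma cnt_le_inj {Ω Ω' : Type} [Fintype Ω] [Fintype Ω'] (P : Ω → Prop) (Q : Ω' → Prop)
    (φ : Ω → Ω') (h1 : ∀ a, P a → Q (φ a)) (h2 : ∀ a b, P a → P b → φ a = φ b → a = b) :
    cnt P ≤ cnt Q := by
  classical
  unfold cnt
  rw [Nat.cast_le]
  refine card_le_card_of_injOn φ ?_ ?_
  · intro a ha
    rw [mem_coe, mem_filter] at ha
    rw [mem_coe, mem_filter]
    exact ⟨mem_univ _, h1 a ha.2⟩
  · intro a ha b hb hab
    rw [mem_coe, mem_filter] at ha hb
    exact h2 a b ha.2 hb.2 hab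

theorem pf_LMB (hF : T_FIB) (hN : T_CNT) (hO : T_OPT) : T_LMB := by
  classical
  intro n K L x m
  have hb0 : (0 : ℝ) ≤ 1 - (3 / 4 : ℝ) ^ K := by
    have : (3 / 4 : ℝ) ^ K ≤ 1 := pow_le_one₀ (by norm_num) (by norm_num)
    linarith
  have hb1 : 1 - (3 / 4 : ℝ) ^ K ≤ 1 := by
    have : (0 : ℝ) ≤ (3 / 4 : ℝ) ^ K := by positivity
    linarith
  by_cases hxm : x = m
  · subst hxm
    have : cnt (fun ω : Om n => (∀ I, Ind (gr ω) I → I.card ≤ K) ∧
        L ≤ chi (gr ω) (Rx (gr ω) x x) ∧ Bad (gr ω) x x) = 0 := by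
      refine cnt_zero _ ?_
      rintro ω ⟨-, -, h⟩
      exact (gr ω).loopless.irrefl _ h.1
    rw [this]
    positivity
  · refine hF (Sym2 (Fin n)) (FF x m) _ _ fun ω => ?_
    by_cases hex : ∃ f0 : Om n, (∀ i, i ∉ FF x m → f0 i = ω i) ∧
        ((∀ I, Ind (gr f0) I → I.card ≤ K) ∧ L ≤ chi (gr f0) (Rx (gr f0) x m) ∧
        Bad (gr f0) x m)
    · obtain ⟨f0, h0, hI0, hL0, hB0⟩ := hex
      set R := Rx (gr f0) x m with hR
      set k := chi (gr f0) R with hk
      set c := opt (gr f0) R with hc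
      have hxR : ∀ v ∈ R, v ≠ x := by
        intro v hv h
        rw [hR] at hv
        unfold Rx at hv
        rw [Finset.mem_sdiff, mem_insert] at hv
        exact hv.2 (Or.inl h)
      have hnbR : ∀ v ∈ R, v ∉ nb (gr f0) x m := by
        intro v hv h
        rw [hR] at hv
        unfold Rx at hv
        rw [Finset.mem_sdiff, mem_insert] at hv
        exact hv.2 (Or.inr h)
      have hmR : ∀ v ∈ R, v ≠ m := by
        rintro v hv rfl
        apply hnbR v hv
        unfold nb
        rw [mem_filter]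
        exact ⟨mem_univ _, hB0.1, le_refl _⟩
      have hWR : ∀ v ∈ WW x m, v ∈ R := by
        intro v hv
        rw [mem_WW] at hv
        rw [hR]
        unfold Rx nb
        rw [Finset.mem_sdiff, mem_insert, mem_filter]
        refine ⟨mem_univ _, ?_⟩
        rintro (h | h)
        · exact hv.2 h
        · exact absurd h.2.2 (not_le.2 hv.1)
      obtain ⟨-, -, O3, -, O5⟩ := hO (Fin n) (gr f0) R
      have hclass : ∀ i < k, (univ.filter fun v : {v // v ∈ WW x m} => c v.1 = i).card ≤ K := by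
        intro i _
        rw [← card_map (Function.Embedding.subtype _)]
        apply hI0
        intro u hu v hv hadj
        rw [Finset.mem_map] at hu hv
        obtain ⟨u', hu', rfl⟩ := hu
        obtain ⟨v', hv', rfl⟩ := hv
        rw [mem_filter] at hu' hv'
        exact O3 _ (hWR _ u'.2) _ (hWR _ v'.2) hadj (hu'.2.trans hv'.2.symm)
      have hcount := hN {v // v ∈ WW x m} K k (fun v => c v.1) hclass
      have hle : cnt (fun f : Om n => (∀ i, i ∉ FF x m → f i = ω i) ∧
          ((∀ I, Ind (gr f) I → I.card ≤ K) ∧ L ≤ chi (gr f) (Rx (gr f) x m) ∧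
          Bad (gr f) x m)) ≤
          cnt (fun g : {v // v ∈ WW x m} → Bool × Bool =>
            ∀ i < k, ∃ v, c v.1 = i ∧ g v = (true, true)) := by
        refine cnt_le_inj _ _ (fun f v => (f s(x, v.1), f s(m, v.1))) ?_ ?_
        · intro f hf
          obtain ⟨hfω, hfI, hfL, hfB⟩ := hf
          have hnb : nb (gr f) x m = nb (gr f0) x m := by
            unfold nb
            refine filter_congr fun v _ => ?_
            constructor
            · rintro ⟨e1, e2⟩
              exact ⟨(adj_iff hfω h0 (not_mem_FF_low hxm e2)).2 e1, e2⟩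
            · rintro ⟨e1, e2⟩
              exact ⟨(adj_iff hfω h0 (not_mem_FF_low hxm e2)).1 e1, e2⟩
          have hRx : Rx (gr f) x m = R := by
            rw [hR]
            unfold Rx
            rw [hnb]
          have hagree : ∀ u ∈ R, ∀ v ∈ R, (gr f0).Adj u v ↔ (gr f).Adj u v := by
            intro u hu v hv
            exact adj_iff hfω h0 (not_mem_FF_rest (hxR u hu) (hmR u hu) (hxR v hv) (hmR v hv))
          obtain ⟨e1, e2⟩ := O5 (gr f) hagree
          intro i hi
          have hB2 := hfB.2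
          rw [hRx, ← e1, ← e2] at hB2
          obtain ⟨v, hv, hvi, ha1, ha2⟩ := hB2 i hi
          have hvm : m < v := by
            by_contra hcon
            push Not at hcon
            apply hnbR v hv
            rw [← hnb]
            unfold nb
            rw [mem_filter]
            exact ⟨mem_univ _, ha1, hcon⟩
          exact ⟨⟨v, mem_WW.2 ⟨hvm, hxR v hv⟩⟩, hvi, Prod.ext ha1.2 ha2.2⟩
        · intro f f' hf hf' heq
          funext e
          by_cases he : e ∈ FF x m
          · unfold FF at he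
            rw [mem_union, mem_image, mem_image] at he
            rcases he with ⟨w, hw, rfl⟩ | ⟨w, hw, rfl⟩
            · have := congrFun heq ⟨w, hw⟩
              exact congrArg Prod.fst this
            · have := congrFun heq ⟨w, hw⟩
              exact congrArg Prod.snd this
          · rw [hf.1 e he, hf'.1 e he]
      refine hle.trans (hcount.trans ?_)
      rw [card_FF hxm, pow_mul, Fintype.card_coe]
      have e4 : (2 : ℝ) ^ 2 = 4 := by norm_num
      rw [e4]
      refine mul_le_mul_of_nonneg_right ?_ (by positivity)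
      exact pow_le_pow_of_le_one hb0 hb1 hL0
    · have : cnt (fun f : Om n => (∀ i, i ∉ FF x m → f i = ω i) ∧
          ((∀ I, Ind (gr f) I → I.card ≤ K) ∧ L ≤ chi (gr f) (Rx (gr f) x m) ∧
          Bad (gr f) x m)) = 0 := cnt_zero _ fun f h => hex ⟨f, h⟩
      rw [this]
      positivity

end Pool.Agent.H38.EAG
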